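import Pool.Agent.Y498.NS.TriI
import Pool.Agent.H459R3.NS.Thin

/-!
The production of the truncated Gevrey norms (job 286 of helper6).
-/

open MeasureTheory Set Filter Topology
open scoped ENNReal

set_option autoImplicit false

namespace Pool.Agent.Y498.NS

open Pool.Agent.H356R3.NS hiding K sq
open Pool.Agent.Y6

variable {y : K → C3}

/-- the square root of the exponential factor -/
noncomputable def gg (σ R : ℝ) (k : K) : ℝ := Real.exp (σ * min (nk k) R)

lemma gg_pos (σ R : ℝ) (k : K) : 0 < gg σ R k := Real.exp_pos _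

lemma nk_sq (k : K) : nk k ^ 2 = qk k := by
  unfold nk
  exact Real.sq_sqrt (sq_nonneg' k)

lemma gev_eq (σ R : ℝ) (k : K) : gev σ R k = gg σ R k ^ 2 * nk k ^ 2 := by
  unfold gev gg
  rw [nk_sq, ← Real.exp_nat_mul]
  congr 2
  push_cast
  ring

lemma gg_le {σ R : ℝ} (hσ : 0 ≤ σ) (k : K) : gg σ R k ≤ Real.exp (σ * R) :=
  Real.exp_le_exp.2 (mul_le_mul_of_nonneg_left (min_le_right _ _) hσ)

lemma gg_sub {σ R : ℝ} (hσ : 0 ≤ σ) (hR : 0 ≤ R) (k l : K) : gg σ R k ≤ gg σ R l * gg σ R (k - l) := by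
  unfold gg
  rw [← Real.exp_add, ← mul_add]
  refine Real.exp_le_exp.2 (mul_le_mul_of_nonneg_left ?_ hσ)
  have h1 := nk_sub_le k l
  have h2 := nk_nonneg l
  have h3 := nk_nonneg (k - l)
  rcases le_total (nk l) R with a | a <;> rcases le_total (nk (k - l)) R with b | b
  · rw [min_eq_left a, min_eq_left b]
    exact (min_le_left _ _).trans (by linarith)
  · rw [min_eq_left a, min_eq_right b]
    exact (min_le_right _ _).trans (by linarith)
  · rw [min_eq_right a, min_eq_left b]
    exact (min_le_right _ _).trans (by linarith)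
  · rw [min_eq_right a, min_eq_right b]
    exact (min_le_right _ _).trans (by linarith)

lemma norm_tau_le' (hy : Fld y) (k l : K) :
    ‖tau y k l‖ ≤ en (y k) * en (y l) * (nk (k - l) * en (y (k - l))) := by
  unfold tau
  have h : dt k (y l) = dt (k - l) (y l) := by rw [dt_sub, hy.div l, sub_zero]
  rw [norm_mul, h]
  calc ‖dt (k - l) (y l)‖ * ‖ipc (y k) (y (k - l))‖
      ≤ (nk (k - l) * en (y l)) * (en (y k) * en (y (k - l))) :=
        mul_le_mul (norm_dt_le _ _) (norm_ipc_le _ _) (norm_nonneg _)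
          (mul_nonneg (nk_nonneg _) (en_nonneg _))
    _ = _ := by ring

/-- the `ℓ²` norm of a sequence of nonnegative numbers -/
lemma e2_ofReal {f : K → ℝ} (hf : ∀ k, 0 ≤ f k) (hs : Summable fun k => f k ^ 2) :
    (∑' k, ENNReal.ofReal (f k) ^ 2) ^ (1 / 2 : ℝ) = ENNReal.ofReal (Real.sqrt (∑' k, f k ^ 2)) := by
  have h1 : ∀ k, ENNReal.ofReal (f k) ^ 2 = ENNReal.ofReal (f k ^ 2) := fun k =>
    (ENNReal.ofReal_pow (hf k) 2).symm
  simp only [h1]
  rw [← ENNReal.ofReal_tsum_of_nonneg (fun k => sq_nonneg _) hs,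
    ENNReal.ofReal_rpow_of_nonneg (tsum_nonneg fun k => sq_nonneg _) (by norm_num), Real.sqrt_eq_rpow]

/-- the tails of a summable family -/
lemma exists_tail {f : K → ℝ} (hs : Summable f) {ε : ℝ} (hε : 0 < ε) :
    ∃ s : Finset K, Summable (fun k => if k ∈ s then 0 else f k) ∧
      ∑' k, (if k ∈ s then 0 else f k) ≤ ε := by
  classical
  have h1 := hs.hasSum
  obtain ⟨s, hs'⟩ := (h1.eventually (Metric.ball_mem_nhds _ hε)).exists
  refine ⟨s, ?_⟩
  have h2 : HasSum (fun k => if k ∈ s then f k else 0) (∑ k ∈ s, f k) := by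
    have : HasSum (fun k => if k ∈ s then f k else 0) (∑ k ∈ s, if k ∈ s then f k else 0) :=
      hasSum_sum_of_ne_finset_zero fun k hk => by simp [hk]
    have e : ∑ k ∈ s, (if k ∈ s then f k else 0) = ∑ k ∈ s, f k :=
      Finset.sum_congr rfl fun k hk => by simp [hk]
    rwa [e] at this
  have h3 := h1.sub h2
  have h4 : (fun k => f k - if k ∈ s then f k else 0) = fun k => if k ∈ s then 0 else f k := by
    funext k
    split_ifs <;> simp
  rw [h4] at h3
  refine ⟨h3.summable, ?_⟩
  rw [h3.tsum_eq]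
  have h5 : dist (∑ k ∈ s, f k) (∑' k, f k) < ε := hs'
  rw [Real.dist_eq, abs_sub_comm] at h5
  exact (le_abs_self _).trans h5.le

/-- **Production of the Gevrey norms.** -/
theorem t_gev : St_gev := by
  classical
  intro η hη
  have hpi := Real.pi_pos
  obtain ⟨s, hsum, hs⟩ := exists_tail summ_nk4 (ε := (η / (2 * Real.pi)) ^ 2) (by positivity)
  set Cs : ℝ := Real.sqrt (∑ k ∈ s, (1 / nk k) ^ 2) with hCs
  have hCs0 : 0 ≤ Cs := Real.sqrt_nonneg _
  refine ⟨2 * Real.pi * Cs, by positivity, fun σ R hσ hR y hy => ?_⟩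
  set g := gg σ R with hg
  have hg0 : ∀ k, 0 < g k := gg_pos σ R
  have e0 : ∀ k, 0 ≤ en (y k) := fun k => en_nonneg _
  have n0 : ∀ k : K, 0 ≤ nk k := nk_nonneg
  set M := Real.exp (σ * R) with hM
  have hM0 : 0 < M := Real.exp_pos _
  have hgM : ∀ k, g k ≤ M := fun k => gg_le hσ k
  -- the bound of the weight
  have hρ : ∀ k, |gev σ R k| ≤ M ^ 2 * pw k ^ 2 := by
    intro k
    rw [gev_eq, abs_of_nonneg (by positivity)]
    have := hgM k
    have := (hg0 k).le
    have := nk_le_pw k
    have := n0 k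
    gcongr
  have hρ0 : ∀ k, 0 ≤ gev σ R k := fun k => by rw [gev_eq]; positivity
  -- the functions
  set A : K → ℝ := fun k => g k * nk k ^ 2 * en (y k) with hA
  set D : K → ℝ := fun k => g k * nk k * en (y k) with hD
  set B : K → ℝ := fun k => g k * en (y k) with hB
  have hA0 : ∀ k, 0 ≤ A k := fun k => by have := e0 k; have := (hg0 k).le; have := n0 k; positivity
  have hD0 : ∀ k, 0 ≤ D k := fun k => by have := e0 k; have := (hg0 k).le; have := n0 k; positivity
  have hB0 : ∀ k, 0 ≤ B k := fun k => by have := e0 k; have := (hg0 k).le; positivity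
  have hAsq : ∀ k, A k ^ 2 = gev σ R k * qk k * en2 (y k) := by
    intro k
    rw [gev_eq, ← nk_sq, ← en_sq]
    simp only [hA]
    ring
  have hDsq : ∀ k, D k ^ 2 = gev σ R k * en2 (y k) := by
    intro k
    rw [gev_eq, ← en_sq]
    simp only [hD]
    ring
  -- summability
  have s4 := rap_summ hy.rap 4
  have s0 : Summable fun k => en (y k) := by simpa using rap_summ hy.rap 0
  set E := ∑' k, en (y k) with hE
  have hEle : ∀ k, en (y k) ≤ E := fun k => s0.le_tsum k fun _ _ => e0 _
  have p1 : ∀ k : K, 1 ≤ pw k := fun k => by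
    have := (l1_nonneg k)
    unfold pw
    linarith
  have hAs : Summable fun k => A k ^ 2 := by
    refine (s4.mul_left (M ^ 2 * E)).of_nonneg_of_le (fun k => sq_nonneg _) fun k => ?_
    have h1 := hgM k
    have h2 := (hg0 k).le
    have h3 := nk_le_pw k
    have h4 := n0 k
    have h5 := e0 k
    have h6 := hEle k
    calc A k ^ 2 = g k ^ 2 * nk k ^ 4 * (en (y k) * en (y k)) := by simp only [hA]; ring
      _ ≤ M ^ 2 * pw k ^ 4 * (E * en (y k)) := by gcongr
      _ = _ := by ring
  have hDs : Summable fun k => D k ^ 2 := by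
    refine (s4.mul_left (M ^ 2 * E)).of_nonneg_of_le (fun k => sq_nonneg _) fun k => ?_
    have h1 := hgM k
    have h2 := (hg0 k).le
    have h3 := nk_le_pw k
    have h4 := n0 k
    have h5 := e0 k
    have h6 := hEle k
    have h7 := p1 k
    calc D k ^ 2 = g k ^ 2 * nk k ^ 2 * (en (y k) * en (y k)) := by simp only [hD]; ring
      _ ≤ M ^ 2 * pw k ^ 2 * (E * en (y k)) := by gcongr
      _ ≤ M ^ 2 * pw k ^ 4 * (E * en (y k)) := by
        have h8 : pw k ^ 2 ≤ pw k ^ 4 := pow_le_pow_right₀ h7 (by norm_num)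
        have h9 : 0 ≤ E := (e0 k).trans h6
        gcongr
      _ = _ := by ring
  have hPa : ∑' k, A k ^ 2 = wn (fun k => gev σ R k * qk k) y := tsum_congr fun k => hAsq k
  have hG : ∑' k, D k ^ 2 = wn (gev σ R) y := tsum_congr fun k => hDsq k
  set Pa := Real.sqrt (wn (fun k => gev σ R k * qk k) y) with hPadef
  set G := Real.sqrt (wn (gev σ R) y) with hGdef
  have hPa0 : 0 ≤ Pa := Real.sqrt_nonneg _
  have hG0 : 0 ≤ G := Real.sqrt_nonneg _
  have eA : (∑' k, ENNReal.ofReal (A k) ^ 2) ^ (1 / 2 : ℝ) = ENNReal.ofReal Pa := by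
    rw [e2_ofReal hA0 hAs, hPa]
  have eD : (∑' k, ENNReal.ofReal (D k) ^ 2) ^ (1 / 2 : ℝ) = ENNReal.ofReal G := by
    rw [e2_ofReal hD0 hDs, hG]
  -- the sum of `B`
  have sB : ∑' l, ENNReal.ofReal (B l) ≤ ENNReal.ofReal (Cs * G + η / (2 * Real.pi) * Pa) := by
    have hw : (∑' l : K, (ENNReal.ofReal (if l ∈ s then 1 / nk l else 0)) ^ 2) ^ (1 / 2 : ℝ)
        = ENNReal.ofReal Cs := by
      have h0 : ∀ l : K, l ∉ s → (if l ∈ s then 1 / nk l else 0) ^ 2 = 0 := fun l hl => by simp [hl]
      rw [e2_ofReal (f := fun l => if l ∈ s then 1 / nk l else 0)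
        (fun l => by split_ifs; exacts [one_div_nonneg.2 (n0 l), le_rfl])
        (summable_of_ne_finset_zero (s := s) fun l hl => h0 l hl), tsum_eq_sum (s := s) fun l hl => h0 l hl]
      rw [hCs]
      congr 2
      exact Finset.sum_congr rfl fun l hl => by simp [hl]
    have hv : (∑' l : K, (ENNReal.ofReal (if l ∈ s then 0 else (1 / nk l) ^ 2)) ^ 2) ^ (1 / 2 : ℝ)
        ≤ ENNReal.ofReal (η / (2 * Real.pi)) := by
      have h0 : ∀ l : K, (if l ∈ s then 0 else (1 / nk l) ^ 2) ^ 2 = if l ∈ s then 0 else (1 / nk l) ^ 4 :=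
        fun l => by split_ifs <;> ring
      rw [e2_ofReal (f := fun l => if l ∈ s then 0 else (1 / nk l) ^ 2)
        (fun l => by have := n0 l; split_ifs; exacts [le_rfl, by positivity])
        (by simpa only [h0] using hsum)]
      refine ENNReal.ofReal_le_ofReal ?_
      simp only [h0]
      refine (Real.sqrt_le_sqrt hs).trans (le_of_eq (Real.sqrt_sq (by positivity)))
    have hle : ∀ l, ENNReal.ofReal (B l) ≤ ENNReal.ofReal (if l ∈ s then 1 / nk l else 0) * ENNReal.ofReal (D l)
        + ENNReal.ofReal (if l ∈ s then 0 else (1 / nk l) ^ 2) * ENNReal.ofReal (A l) := by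
      intro l
      by_cases hl0 : l = 0
      · subst hl0
        have : B 0 = 0 := by simp only [hB]; rw [hy.zero, en_zero, mul_zero]
        rw [this, ENNReal.ofReal_zero]
        exact zero_le
      have hn : 0 < nk l := nk_pos hl0
      by_cases hl : l ∈ s
      · simp only [hl, if_true, ENNReal.ofReal_zero, zero_mul, add_zero]
        rw [← ENNReal.ofReal_mul (by positivity)]
        refine ENNReal.ofReal_le_ofReal (le_of_eq ?_)
        simp only [hB, hD]
        field_simp
      · simp only [hl, if_false, ENNReal.ofReal_zero, zero_mul, zero_add]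
        rw [← ENNReal.ofReal_mul (by positivity)]
        refine ENNReal.ofReal_le_ofReal (le_of_eq ?_)
        simp only [hB, hA]
        field_simp
    calc ∑' l, ENNReal.ofReal (B l) ≤ ∑' l, (ENNReal.ofReal (if l ∈ s then 1 / nk l else 0) * ENNReal.ofReal (D l)
        + ENNReal.ofReal (if l ∈ s then 0 else (1 / nk l) ^ 2) * ENNReal.ofReal (A l)) :=
          ENNReal.tsum_le_tsum hle
      _ = (∑' l, ENNReal.ofReal (if l ∈ s then 1 / nk l else 0) * ENNReal.ofReal (D l))
        + ∑' l, ENNReal.ofReal (if l ∈ s then 0 else (1 / nk l) ^ 2) * ENNReal.ofReal (A l) :=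
          ENNReal.tsum_add
      _ ≤ ENNReal.ofReal Cs * ENNReal.ofReal G
        + ENNReal.ofReal (η / (2 * Real.pi)) * ENNReal.ofReal Pa := by
          refine add_le_add ?_ ?_
          · refine (H459R3.NS.enn_cs _ _).trans ?_
            rw [hw, eD]
          · refine (H459R3.NS.enn_cs _ _).trans ?_
            rw [eA]
            exact mul_le_mul_left hv _
      _ = _ := by
          rw [← ENNReal.ofReal_mul hCs0, ← ENNReal.ofReal_mul (by positivity),
            ← ENNReal.ofReal_add (by positivity) (by positivity)]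
  -- the double sum
  have hdouble : ∑' k : K, ∑' l : K, ENNReal.ofReal (|gev σ R k| * ‖tau y k l‖)
      ≤ ENNReal.ofReal (Pa * G * (Cs * G + η / (2 * Real.pi) * Pa)) := by
    have hterm : ∀ k l, ENNReal.ofReal (|gev σ R k| * ‖tau y k l‖)
        ≤ ENNReal.ofReal (B l) * (ENNReal.ofReal (A k) * ENNReal.ofReal (D (k - l))) := by
      intro k l
      rw [← ENNReal.ofReal_mul (hA0 k), ← ENNReal.ofReal_mul (hB0 l)]
      refine ENNReal.ofReal_le_ofReal ?_
      rw [abs_of_nonneg (hρ0 k), gev_eq]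
      have h1 := gg_sub hσ hR k l
      have h2 := norm_tau_le' hy k l
      have a1 := (hg0 k).le
      have a2 := (hg0 l).le
      have a3 := (hg0 (k - l)).le
      have b1 := n0 k
      have b3 := n0 (k - l)
      have c1 := e0 k
      have c2 := e0 l
      have c3 := e0 (k - l)
      calc g k ^ 2 * nk k ^ 2 * ‖tau y k l‖
          ≤ g k ^ 2 * nk k ^ 2 * (en (y k) * en (y l) * (nk (k - l) * en (y (k - l)))) := by gcongr
        _ = g k * (g k * nk k ^ 2 * (en (y k) * en (y l) * (nk (k - l) * en (y (k - l))))) := by ring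
        _ ≤ (g l * g (k - l)) * (g k * nk k ^ 2 * (en (y k) * en (y l) * (nk (k - l) * en (y (k - l))))) := by
            gcongr
        _ = _ := by simp only [hA, hB, hD]; ring
    calc ∑' k : K, ∑' l : K, ENNReal.ofReal (|gev σ R k| * ‖tau y k l‖)
        ≤ ∑' k : K, ∑' l : K, ENNReal.ofReal (B l) * (ENNReal.ofReal (A k) * ENNReal.ofReal (D (k - l))) :=
          ENNReal.tsum_le_tsum fun k => ENNReal.tsum_le_tsum fun l => hterm k l
      _ = ∑' l : K, ENNReal.ofReal (B l) * ∑' k : K, (ENNReal.ofReal (A k) * ENNReal.ofReal (D (k - l))) := by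
          rw [ENNReal.tsum_comm]
          exact tsum_congr fun l => ENNReal.tsum_mul_left
      _ ≤ ∑' l : K, ENNReal.ofReal (B l) * (ENNReal.ofReal Pa * ENNReal.ofReal G) := by
          refine ENNReal.tsum_le_tsum fun l => mul_le_mul_right ?_ _
          refine (H459R3.NS.enn_cs _ _).trans ?_
          rw [eA]
          refine mul_le_mul_right (le_of_eq ?_) _
          rw [← eD]
          congr 1
          exact (Equiv.subRight l).tsum_eq (fun k => ENNReal.ofReal (D k) ^ 2)
      _ = (∑' l : K, ENNReal.ofReal (B l)) * (ENNReal.ofReal Pa * ENNReal.ofReal G) := ENNReal.tsum_mul_right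
      _ ≤ ENNReal.ofReal (Cs * G + η / (2 * Real.pi) * Pa) * (ENNReal.ofReal Pa * ENNReal.ofReal G) :=
          mul_le_mul_left sB _
      _ = _ := by
          rw [← ENNReal.ofReal_mul hPa0, ← ENNReal.ofReal_mul (by positivity)]
          congr 1
          ring
  have hfin := (t_tri y (gev σ R) (M ^ 2) 2 hy hρ).1
  have h2 : ENNReal.ofReal |prdi (gev σ R) y|
      ≤ ENNReal.ofReal (2 * Real.pi * (Pa * G * (Cs * G + η / (2 * Real.pi) * Pa))) := by
    rw [ENNReal.ofReal_mul (by positivity)]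
    exact hfin.trans (mul_le_mul_right hdouble _)
  rw [ENNReal.ofReal_le_ofReal_iff (by positivity)] at h2
  refine h2.trans (le_of_eq ?_)
  field_simp

end Pool.Agent.Y498.NS
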