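import Pool.Agent.Y6.Stm3

/-!
The production of weighted energies as an absolutely convergent sum over triads (job 286 of helper6).
-/

open MeasureTheory Set
open scoped ENNReal

set_option autoImplicit false

namespace Pool.Agent.Y498.NS

open Pool.Agent.H356R3.NS hiding K sq
open Pool.Agent.Y6

variable {y : K → C3}

lemma en_le (v : C3) : en v ≤ Real.sqrt 3 * ‖v‖ := by
  unfold en
  rw [← Real.sqrt_sq (norm_nonneg v), ← Real.sqrt_mul (by norm_num)]
  exact Real.sqrt_le_sqrt (en2_le v)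

lemma rap_summ (hy : RapK y) (m : ℕ) : Summable fun k => pw k ^ m * en (y k) := by
  obtain ⟨C, hC⟩ := hy (m + 4)
  obtain ⟨h1, h2⟩ := summ_of_bound (f := fun k => ‖y k‖) m hC
  refine (h1.mul_left (Real.sqrt 3)).of_nonneg_of_le
    (fun k => mul_nonneg (pow_nonneg (pw_pos k).le m) (en_nonneg _)) fun k => ?_
  calc pw k ^ m * en (y k) ≤ pw k ^ m * (Real.sqrt 3 * ‖y k‖) :=
        mul_le_mul_of_nonneg_left (en_le _) (pow_nonneg (pw_pos k).le m)
    _ = Real.sqrt 3 * (pw k ^ m * ‖y k‖) := by ring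
    _ ≤ _ := mul_le_mul_of_nonneg_left (h2 k) (Real.sqrt_nonneg _)

lemma norm_tau_le (y : K → C3) (k l : K) :
    ‖tau y k l‖ ≤ (nk k * en (y k)) * (en (y l) * en (y (k - l))) := by
  unfold tau
  rw [norm_mul]
  calc ‖dt k (y l)‖ * ‖ipc (y k) (y (k - l))‖
      ≤ (nk k * en (y l)) * (en (y k) * en (y (k - l))) :=
        mul_le_mul (norm_dt_le _ _) (norm_ipc_le _ _) (norm_nonneg _)
          (mul_nonneg (nk_nonneg _) (en_nonneg _))
    _ = _ := by ring

/-- the terms -/
noncomputable def FF (ρ : K → ℝ) (y : K → C3) (p : K × K) : ℂ := (ρ p.1 : ℂ) * tau y p.1 p.2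

lemma summ_FF (hy : RapK y) {ρ : K → ℝ} {C : ℝ} {m : ℕ} (hρ : ∀ k, |ρ k| ≤ C * pw k ^ m) :
    Summable fun p => ‖FF ρ y p‖ := by
  have hC : 0 ≤ C := by
    have h1 := (abs_nonneg _).trans (hρ 0)
    have h2 := pow_pos (pw_pos (0 : K)) m
    exact nonneg_of_mul_nonneg_left h1 h2
  have s0 : Summable fun k => en (y k) := by simpa using rap_summ hy 0
  have s1 := rap_summ hy (m + 1)
  set D := ∑' k, en (y k) with hD
  have hDle : ∀ k, en (y k) ≤ D := fun k => s0.le_tsum k fun _ _ => en_nonneg _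
  have hD0 : 0 ≤ D := tsum_nonneg fun _ => en_nonneg _
  have s2 : Summable fun p : K × K => (C * (pw p.1 ^ (m + 1) * en (y p.1))) * (D * en (y p.2)) :=
    (s1.mul_left C).mul_of_nonneg (s0.mul_left D)
      (fun k => mul_nonneg hC (mul_nonneg (pow_nonneg (pw_pos k).le _) (en_nonneg _)))
      (fun k => mul_nonneg hD0 (en_nonneg _))
  refine s2.of_nonneg_of_le (fun p => norm_nonneg _) fun p => ?_
  obtain ⟨k, l⟩ := p
  simp only [FF]
  rw [norm_mul, Complex.norm_real, Real.norm_eq_abs]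
  have n1 := nk_nonneg k
  have e1 := en_nonneg (y k)
  have e2 := en_nonneg (y l)
  have e3 := en_nonneg (y (k - l))
  have p1 := (pw_pos k).le
  calc |ρ k| * ‖tau y k l‖ ≤ (C * pw k ^ m) * ((nk k * en (y k)) * (en (y l) * en (y (k - l)))) :=
        mul_le_mul (hρ k) (norm_tau_le y k l) (norm_nonneg _) (mul_nonneg hC (pow_nonneg p1 m))
    _ ≤ (C * pw k ^ m) * ((pw k * en (y k)) * (en (y l) * D)) := by
        have := nk_le_pw k
        have := hDle (k - l)
        gcongr
    _ = _ := by ring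

lemma summ_tau (hy : RapK y) (k : K) : Summable fun l => tau y k l := by
  have h := (summ_FF hy (ρ := fun _ => 1) (C := 1) (m := 0) (by simp)).of_norm
  have := h.prod_factor k
  simpa [FF] using this

lemma ipc_Bf_inf (hy : RapK y) {k : K} (hd : dt k (y k) = 0) :
    ipc (y k) (Bf y y k) = -(2 * Real.pi * Complex.I) * ∑' l, tau y k l := by
  rw [ipc_Bf hd]
  congr 1
  have s0 : Summable fun k => en (y k) := by simpa using rap_summ hy 0
  have hDle : ∀ k, en (y k) ≤ ∑' k, en (y k) := fun k => s0.le_tsum k fun _ _ => en_nonneg _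
  have hcv : ∀ j m : Fin 3, Summable fun l => y l j * y (k - l) m := by
    intro j m
    refine Summable.of_norm_bounded (s0.mul_right (∑' k, en (y k))) fun l => ?_
    rw [norm_mul]
    exact mul_le_mul ((norm_le_pi_norm _ j).trans (norm_le_en _))
      (((norm_le_pi_norm _ m).trans (norm_le_en _)).trans (hDle _)) (norm_nonneg _) (en_nonneg _)
  have h1 : HasSum (fun l => ∑ j, ∑ m, (k j : ℂ) * star (y k m) * (y l j * y (k - l) m))
      (∑ j, ∑ m, (k j : ℂ) * star (y k m) * cv y y k j m) :=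
    hasSum_sum fun j _ => hasSum_sum fun m _ => (hcv j m).hasSum.mul_left _
  rw [← h1.tsum_eq]
  refine tsum_congr fun l => ?_
  unfold tau dt ipc
  rw [Finset.sum_mul_sum]
  refine Finset.sum_congr rfl fun j _ => Finset.sum_congr rfl fun m _ => ?_
  ring

lemma prdi_eq (hy : Fld y) {ρ : K → ℝ} {C : ℝ} {m : ℕ} (hρ : ∀ k, |ρ k| ≤ C * pw k ^ m) :
    prdi ρ y = 2 * Real.pi * (∑' p, FF ρ y p).im := by
  have hs := (summ_FF hy.rap hρ).of_norm
  have h1 : ∀ k, ρ k * (ipc (y k) (Bf y y k)).re = 2 * Real.pi * (∑' l, FF ρ y (k, l)).im := by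
    intro k
    have h2 : ∑' l, FF ρ y (k, l) = (ρ k : ℂ) * ∑' l, tau y k l := by
      simp only [FF]
      exact tsum_mul_left
    rw [ipc_Bf_inf hy.rap (hy.div k), h2]
    simp only [Complex.mul_re, Complex.mul_im, Complex.neg_re, Complex.neg_im, Complex.I_re, Complex.I_im,
      Complex.ofReal_re, Complex.ofReal_im, Complex.re_ofNat, Complex.im_ofNat]
    ring
  unfold prdi
  simp only [h1]
  rw [tsum_mul_left, hs.tsum_prod]
  congr 1
  exact (Complex.hasSum_im hs.prod.hasSum).tsum_eq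

/-- the involution of the triads -/
def sw : K × K ≃ K × K where
  toFun p := (p.1 - p.2, -p.2)
  invFun p := (p.1 - p.2, -p.2)
  left_inv p := by simp
  right_inv p := by simp

lemma tsum_FF_im (hy : Fld y) {ρ : K → ℝ} {C : ℝ} {m : ℕ} (hρ : ∀ k, |ρ k| ≤ C * pw k ^ m) :
    2 * |(∑' p, FF ρ y p).im| = ‖∑' p : K × K, ((ρ p.1 - ρ (p.1 - p.2) : ℝ) : ℂ) * tau y p.1 p.2‖ := by
  have hs := (summ_FF hy.rap hρ).of_norm
  have h1 : ∀ p : K × K, FF ρ y (sw p) = star ((ρ (p.1 - p.2) : ℂ) * tau y p.1 p.2) := by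
    intro p
    simp only [FF, sw, Equiv.coe_fn_mk]
    rw [tau_swap hy.sym hy.div, star_mul', Complex.star_def, Complex.conj_ofReal]
  have hs2 : Summable fun p : K × K => (ρ (p.1 - p.2) : ℂ) * tau y p.1 p.2 := by
    have h2 := (sw.summable_iff (f := FF ρ y)).2 hs
    have h3 := h2.star
    refine h3.congr fun p => ?_
    simp only [Function.comp_apply]
    rw [h1, star_star]
  have h4 : ∑' p : K × K, (ρ (p.1 - p.2) : ℂ) * tau y p.1 p.2 = star (∑' p, FF ρ y p) := by
    rw [← sw.tsum_eq (FF ρ y), tsum_star]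
    refine tsum_congr fun p => ?_
    rw [h1, star_star]
  have h5 : ∑' p : K × K, ((ρ p.1 - ρ (p.1 - p.2) : ℝ) : ℂ) * tau y p.1 p.2
      = (∑' p, FF ρ y p) - star (∑' p, FF ρ y p) := by
    rw [← h4, ← hs.tsum_sub hs2]
    refine tsum_congr fun p => ?_
    simp only [FF]
    push_cast
    ring
  rw [h5]
  set S := ∑' p, FF ρ y p
  have h6 : S - star S = ((2 * S.im : ℝ) : ℂ) * Complex.I := by
    apply Complex.ext <;> simp
    ring
  rw [h6, norm_mul, Complex.norm_I, mul_one, Complex.norm_real, Real.norm_eq_abs, abs_mul]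
  simp

lemma ofReal_norm_tsum_le {f : K × K → ℂ} (hf : Summable fun p => ‖f p‖) :
    ENNReal.ofReal ‖∑' p, f p‖ ≤ ∑' k : K, ∑' l : K, ENNReal.ofReal ‖f (k, l)‖ := by
  rw [← ENNReal.tsum_prod (f := fun k l => ENNReal.ofReal ‖f (k, l)‖),
    ← ENNReal.ofReal_tsum_of_nonneg (fun _ => norm_nonneg _) hf]
  exact ENNReal.ofReal_le_ofReal (norm_tsum_le_tsum_norm hf)

/-- **The bound of the production by triads.** -/
theorem t_tri : St_tri := by
  intro y ρ C m hy hρ
  have hs := summ_FF hy.rap hρ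
  have hpi := Real.pi_pos
  constructor
  · rw [prdi_eq hy hρ, abs_mul, abs_of_pos (by positivity : (0 : ℝ) < 2 * Real.pi),
      ENNReal.ofReal_mul (by positivity)]
    refine mul_le_mul_right ?_ _
    refine (ENNReal.ofReal_le_ofReal (Complex.abs_im_le_norm _)).trans ((ofReal_norm_tsum_le hs).trans
      (le_of_eq ?_))
    simp only [FF, norm_mul, Complex.norm_real, Real.norm_eq_abs]
  · have h1 := tsum_FF_im hy hρ
    have h2 : |prdi ρ y| = Real.pi *
        ‖∑' p : K × K, ((ρ p.1 - ρ (p.1 - p.2) : ℝ) : ℂ) * tau y p.1 p.2‖ := by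
      rw [prdi_eq hy hρ, abs_mul, abs_of_pos (by positivity : (0 : ℝ) < 2 * Real.pi), ← h1]
      ring
    have hs3 : Summable fun p : K × K => ‖((ρ p.1 - ρ (p.1 - p.2) : ℝ) : ℂ) * tau y p.1 p.2‖ := by
      have h3 : Summable fun p : K × K => ‖FF ρ y (sw p)‖ := (sw.summable_iff (f := fun p => ‖FF ρ y p‖)).2 hs
      refine (hs.add h3).of_nonneg_of_le (fun _ => norm_nonneg _) fun p => ?_
      have h4 : ‖FF ρ y (sw p)‖ = ‖(ρ (p.1 - p.2) : ℂ) * tau y p.1 p.2‖ := by
        simp only [FF, sw, Equiv.coe_fn_mk]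
        rw [tau_swap hy.sym hy.div, norm_mul, norm_mul, norm_star]
      rw [h4]
      have h5 : ((ρ p.1 - ρ (p.1 - p.2) : ℝ) : ℂ) * tau y p.1 p.2
          = FF ρ y p - (ρ (p.1 - p.2) : ℂ) * tau y p.1 p.2 := by
        simp only [FF]
        push_cast
        ring
      rw [h5]
      exact norm_sub_le _ _
    rw [h2, ENNReal.ofReal_mul hpi.le]
    refine mul_le_mul_right ?_ _
    refine (ofReal_norm_tsum_le hs3).trans (le_of_eq ?_)
    simp only [norm_mul, Complex.norm_real, Real.norm_eq_abs]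

end Pool.Agent.Y498.NS
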